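import Pool.Agent.Helper43.RP.Goals
import Mathlib

/-!
# Packet RP-CLZ (project RP, MP_f5847d_nt): lattice points in a sheared simplex
-/

set_option autoImplicit false

namespace Pool.Agent.Helper57.RP.CLZ

open Finset Pool.Agent.Helper43.RP

theorem up_castSucc {m : ℕ} (y : Fin (m + 1) → ℝ) (i : Fin m) :
    up y i.castSucc = up (fun j => y j.castSucc) i + y (Fin.last m) := by
  unfold up
  rw [Finset.sum_filter, Finset.sum_filter, Fin.sum_univ_castSucc]
  simp only [Fin.castSucc_le_castSucc_iff, Fin.le_last, if_true]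

theorem up_last {m : ℕ} (y : Fin (m + 1) → ℝ) :
    up y (Fin.last m) = y (Fin.last m) := by
  unfold up
  rw [Finset.sum_filter, Fin.sum_univ_castSucc]
  have h : ∀ j : Fin m, ¬ (Fin.last m ≤ j.castSucc) := fun j =>
    not_le.2 (Fin.castSucc_lt_last j)
  simp only [h, if_false, Finset.sum_const_zero, le_refl, if_true, zero_add]

theorem pow_diff (m : ℕ) {G v : ℝ} (hv : 0 ≤ v) (hG : v ≤ G) :
    G ^ (m + 1) - (G - v) ^ (m + 1) ≤ (m + 1) * v * G ^ m := by
  induction m with
  | zero => simp
  | succ m ih =>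
    have h1 : (G - v) ^ (m + 1) ≤ G ^ (m + 1) :=
      pow_le_pow_left₀ (by linarith) (by linarith) _
    have hG0 : 0 ≤ G := hv.trans hG
    have h2 := mul_le_mul_of_nonneg_left ih hG0
    have h3 := mul_le_mul_of_nonneg_left h1 hv
    have e : G ^ (m + 1 + 1) - (G - v) ^ (m + 1 + 1) =
        G * (G ^ (m + 1) - (G - v) ^ (m + 1)) + v * (G - v) ^ (m + 1) := by ring
    rw [e]
    push_cast
    calc _ ≤ G * ((m + 1) * v * G ^ m) + v * G ^ (m + 1) := add_le_add h2 h3
      _ = _ := by ring

theorem tele (m : ℕ) {v : ℝ} (hv : 0 < v) (J : ℕ) : ∀ G : ℝ, 0 ≤ G → G ≤ J * v →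
    G ^ (m + 1) ≤ (m + 1) * v * ∑ t ∈ Finset.range J, (max (G - t * v) 0) ^ m := by
  induction J with
  | zero =>
    intro G h0 h1
    have : G = 0 := le_antisymm (by simpa using h1) h0
    rw [this]
    simp
  | succ J ih =>
    intro G h0 h1
    rw [Finset.sum_range_succ']
    have hm0 : (0 : ℝ) ≤ m := Nat.cast_nonneg m
    have e0 : max (G - ((0 : ℕ) : ℝ) * v) 0 = G := by
      rw [Nat.cast_zero, zero_mul, sub_zero, max_eq_left h0]
    rw [e0]
    rcases le_total v G with hG | hG
    · have h2 := ih (G - v) (by linarith) (by push_cast at h1; linarith)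
      have e1 : ∀ t : ℕ, max (G - ((t + 1 : ℕ) : ℝ) * v) 0 = max (G - v - t * v) 0 := by
        intro t
        congr 1
        push_cast
        ring
      simp only [e1]
      have h3 := pow_diff m hv.le hG
      rw [mul_add]
      linarith
    · have h4 : 0 ≤ ∑ t ∈ Finset.range J, (max (G - ((t + 1 : ℕ) : ℝ) * v) 0) ^ m :=
        Finset.sum_nonneg fun t _ => pow_nonneg (le_max_right _ _) _
      have h5 : 0 ≤ (m + 1) * v := by positivity
      have h6 : G ≤ (m + 1) * v := by nlinarith
      have h7 : G ^ (m + 1) ≤ (m + 1) * v * G ^ m := by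
        rw [pow_succ, mul_comm]
        exact mul_le_mul_of_nonneg_right h6 (pow_nonneg h0 m)
      have h8 := mul_nonneg h5 h4
      rw [mul_add]
      linarith

theorem t : Pool.Agent.Helper43.RP.CLZ := by
  intro m
  induction m with
  | zero =>
    intro n w x Δ _ _ h
    refine ⟨Finset.univ, ?_, ?_⟩
    · intro d _
      refine ⟨fun i => i.elim0, ?_⟩
      simpa using h
    · simp
  | succ m ih =>
    intro n w x Δ hn hw hΔ
    have hnl : 0 < n (Fin.last m) := hn _
    have hwl : 0 < w (Fin.last m) := hw _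
    set a := n (Fin.last m) with ha
    set b := w (Fin.last m) with hb
    set σ := ∑ i : Fin m, w i.castSucc * n i.castSucc with hσ
    have hsum : ∑ i, w i * n i = σ + b * a := Fin.sum_univ_castSucc _
    rw [hsum] at hΔ
    set v := b * a with hv
    have hv0 : 0 < v := mul_pos hwl hnl
    set k0 : ℤ := ⌈-x / a⌉ with hk0
    set u0 : ℝ := x + k0 * a with hu0
    have hu0n : 0 ≤ u0 := by
      have h1 : -x / a ≤ k0 := Int.le_ceil _
      rw [div_le_iff₀ hnl] at h1
      linarith
    have hu0a : u0 ≤ a := by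
      have h1 : (k0 : ℝ) < -x / a + 1 := Int.ceil_lt_add_one _
      have h2 : (k0 : ℝ) * a < (-x / a + 1) * a := mul_lt_mul_of_pos_right h1 hnl
      have h3 : (-x / a + 1) * a = -x + a := by
        field_simp
      linarith
    set G : ℝ := Δ - σ - b * u0 with hG
    have hGl : Δ - (σ + v) ≤ G := by
      have : b * u0 ≤ b * a := mul_le_mul_of_nonneg_left hu0a hwl.le
      linarith
    have hG0 : 0 ≤ G := by linarith
    set J : ℕ := ⌊G / v⌋₊ + 1 with hJ
    have hJ1 : G ≤ J * v := by
      have h1 : G / v < (⌊G / v⌋₊ : ℝ) + 1 := Nat.lt_floor_add_one _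
      rw [div_lt_iff₀ hv0] at h1
      rw [hJ]
      push_cast
      exact h1.le
    have hJ2 : ∀ t ∈ Finset.range J, (t : ℝ) * v ≤ G := by
      intro t ht
      rw [Finset.mem_range, hJ, Nat.lt_succ_iff] at ht
      have h1 : (t : ℝ) ≤ G / v := (Nat.cast_le.2 ht).trans
        (Nat.floor_le (div_nonneg hG0 hv0.le))
      rwa [le_div_iff₀ hv0] at h1
    -- the sets of the induction hypothesis
    have hstep : ∀ t : ℕ, ∃ V : Finset (Fin m → ℤ), t ∈ Finset.range J →
        (∀ d ∈ V, (∀ i : Fin m, 0 ≤ (u0 + t * a) +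
            up (fun j : Fin m => (d j : ℝ) * n j.castSucc) i) ∧
          ∑ i : Fin m, w i.castSucc * ((u0 + t * a) +
            up (fun j : Fin m => (d j : ℝ) * n j.castSucc) i) ≤ Δ - b * (u0 + t * a)) ∧
        (G - t * v) ^ m ≤ (V.card : ℝ) *
          ((m.factorial : ℝ) * ∏ i : Fin m, (w i.castSucc * n i.castSucc)) := by
      intro t
      by_cases ht : t ∈ Finset.range J
      · have h1 := hJ2 t ht
        have h2 : Δ - b * (u0 + t * a) - σ = G - t * v := by
          rw [hG, hv]
          ring
        obtain ⟨V, hV1, hV2⟩ := ih (fun i => n i.castSucc) (fun i => w i.castSucc)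
          (u0 + t * a) (Δ - b * (u0 + t * a)) (fun i => hn _) (fun i => hw _) (by
            show σ ≤ _
            linarith)
        refine ⟨V, fun _ => ⟨hV1, ?_⟩⟩
        have h3 : Δ - b * (u0 + t * a) - ∑ i : Fin m, w i.castSucc * n i.castSucc =
          G - t * v := h2
        rw [← h3]
        exact hV2
      · exact ⟨∅, fun h => absurd h ht⟩
    choose V hV using hstep
    set F : ℕ → Finset (Fin (m + 1) → ℤ) := fun t =>
      (V t).image (fun d => (Fin.snoc d (k0 + t) : Fin (m + 1) → ℤ)) with hF
    have hinj : ∀ t : ℕ, Function.Injective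
        (fun d : Fin m → ℤ => (Fin.snoc d (k0 + t) : Fin (m + 1) → ℤ)) := by
      intro t d d' h
      have h' : (Fin.snoc d (k0 + t) : Fin (m + 1) → ℤ) = Fin.snoc d' (k0 + t) := h
      funext i
      have h1 := congrFun h' i.castSucc
      rwa [Fin.snoc_castSucc, Fin.snoc_castSucc] at h1
    have hcardF : ∀ t, (F t).card = (V t).card := fun t =>
      Finset.card_image_of_injective _ (hinj t)
    have hdisj : ∀ t ∈ Finset.range J, ∀ t' ∈ Finset.range J, t ≠ t' →
        Disjoint (F t) (F t') := by
      intro t _ t' _ hne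
      rw [Finset.disjoint_left]
      intro d hd hd'
      rw [hF] at hd hd'
      obtain ⟨d1, -, h1⟩ := Finset.mem_image.1 hd
      obtain ⟨d2, -, h2⟩ := Finset.mem_image.1 hd'
      have h3 := congrFun h1 (Fin.last m)
      have h4 := congrFun h2 (Fin.last m)
      rw [Fin.snoc_last] at h3 h4
      apply hne
      have h5 : k0 + (t : ℤ) = k0 + (t' : ℤ) := h3.trans h4.symm
      have h6 : (t : ℤ) = (t' : ℤ) := by linarith
      exact_mod_cast h6
    refine ⟨(Finset.range J).biUnion F, ?_, ?_⟩
    · intro d hd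
      obtain ⟨t, ht, hdt⟩ := Finset.mem_biUnion.1 hd
      obtain ⟨d', hd', rfl⟩ := Finset.mem_image.1 hdt
      obtain ⟨h1, h2⟩ := (hV t ht).1 d' hd'
      have hlast : x + up (fun j => ((Fin.snoc d' (k0 + t) : Fin (m + 1) → ℤ) j : ℝ) * n j)
          (Fin.last m) = u0 + t * a := by
        rw [up_last, Fin.snoc_last]
        push_cast
        rw [hu0]
        ring
      have hcs : ∀ i : Fin m,
          x + up (fun j => ((Fin.snoc d' (k0 + t) : Fin (m + 1) → ℤ) j : ℝ) * n j)
            i.castSucc = (u0 + t * a) + up (fun j : Fin m => (d' j : ℝ) * n j.castSucc) i := by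
        intro i
        rw [up_castSucc, Fin.snoc_last]
        have e : (fun j : Fin m => ((Fin.snoc d' (k0 + t) : Fin (m + 1) → ℤ) j.castSucc : ℝ) *
            n j.castSucc) = fun j : Fin m => (d' j : ℝ) * n j.castSucc := by
          funext j
          rw [Fin.snoc_castSucc]
        rw [e]
        push_cast
        rw [hu0]
        ring
      constructor
      · intro i
        refine Fin.lastCases ?_ (fun i => ?_) i
        · rw [hlast]
          have : (0 : ℝ) ≤ t := Nat.cast_nonneg t
          positivity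
        · rw [hcs]
          exact h1 i
      · rw [Fin.sum_univ_castSucc, hlast]
        simp only [hcs]
        linarith
    · rw [Finset.card_biUnion hdisj, hsum]
      have h1 := tele m hv0 J G hG0 hJ1
      have h2 : ∑ t ∈ Finset.range J, (max (G - t * v) 0) ^ m ≤
          ∑ t ∈ Finset.range J, ((F t).card : ℝ) *
          ((m.factorial : ℝ) * ∏ i : Fin m, (w i.castSucc * n i.castSucc)) := by
        refine Finset.sum_le_sum fun t ht => ?_
        rw [max_eq_left (by linarith [hJ2 t ht]), hcardF]
        exact (hV t ht).2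
      have h3 : (Δ - (σ + v)) ^ (m + 1) ≤ G ^ (m + 1) :=
        pow_le_pow_left₀ (by linarith) hGl _
      have h4 : (0 : ℝ) ≤ (m + 1) * v := by positivity
      have h5 := mul_le_mul_of_nonneg_left h2 h4
      refine h3.trans (h1.trans (h5.trans (le_of_eq ?_)))
      rw [← Finset.sum_mul, Nat.cast_sum, Fin.prod_univ_castSucc, Nat.factorial_succ]
      push_cast
      ring

end Pool.Agent.Helper57.RP.CLZ
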